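import Pool.Agent.N252.HC.Main

/-!
# A smooth diffeomorphism no invariant measure of which attains equality in Ruelle's inequality

The diffeomorphism `f` of the two-torus has exactly eight recurrent points, all fixed: four hyperbolic
saddles, which form attracting heteroclinic cycles, and four sources. So every invariant probability
measure is a convex combination of eight Dirac measures; its entropy is zero and the integral of the
sum of the positive exponents is at least `1/40`.
-/

set_option autoImplicit false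

open Set Filter Topology MeasureTheory
open scoped ContDiff
open Pool.Agent.Helper179.KS

namespace Pool.Agent.Results.MP_794bd6_an.NoEqualityMeasure

/-- The two-torus `ℝ²/ℤ²`. -/
abbrev Torus : Type := UnitAddCircle × UnitAddCircle

/-- The universal cover of the two-torus, which is also its tangent space at every point. -/
abbrev Plane : Type := ℝ × ℝ

/-- The covering map `ℝ² → ℝ²/ℤ²`. -/
def proj (z : Plane) : Torus := ((z.1 : UnitAddCircle), (z.2 : UnitAddCircle))

/-- `f` is a `C^∞` diffeomorphism of the torus: `F` and `G` are `C^∞` lifts of `f` and `f⁻¹`. The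
derivative of `fⁿ` at `proj z` is that of `Fⁿ` at `z`. -/
structure IsSmoothDiffeo (f : Torus ≃ₜ Torus) (F G : Plane → Plane) : Prop where
  lift : ∀ z, f (proj z) = proj (F z)
  lift_symm : ∀ z, f.symm (proj z) = proj (G z)
  smooth : ContDiff ℝ ∞ F
  smooth_symm : ContDiff ℝ ∞ G

/-- The norm of the map `Λ A` induced by a linear map `A` of the plane on the exterior algebra
`Λ ℝ² = ℝ ⊕ ℝ² ⊕ ℝ`, that is, of `1 ⊕ A ⊕ det A`. -/
noncomputable def extNorm (A : Plane →L[ℝ] Plane) : ℝ := max 1 (max ‖A‖ |A.det|)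

/-- `c` is the value `χ₊(x)` of the sum of the positive Lyapunov exponents (with multiplicity) at the
point `x` of the torus, for the diffeomorphism with lift `F`:
`(1/n) log ‖Λ T_x fⁿ‖` tends to `c`. -/
def IsChiPlus (F : Plane → Plane) (x : Torus) (c : ℝ) : Prop :=
  ∀ z : Plane, proj z = x →
    Tendsto (fun n : ℕ => 1 / (n : ℝ) * Real.log (extNorm (fderiv ℝ (F^[n]) z))) atTop (𝓝 c)

/-- There is a `C^∞` diffeomorphism `f` of the two-torus (with lift `F`) and a measurable function `χ`
on the torus such that for every `f`-invariant Borel probability measure `ρ` the value at `ρ`-almost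
every point of the sum `χ₊` of the positive Lyapunov exponents is `χ`, and
`h(ρ) < ∫ χ₊ dρ`; moreover the maximum of `h(ρ) - ∫ χ₊ dρ` over all `f`-invariant Borel probability
measures is `- 1/40`. -/
theorem result : ∃ (f : Torus ≃ₜ Torus) (F G : Plane → Plane), IsSmoothDiffeo f F G ∧
    ∃ χ : Torus → ℝ, Measurable χ ∧
      (∀ ρ : Measure Torus, IsProbabilityMeasure ρ → MeasurePreserving f ρ ρ →
        (∀ᵐ x ∂ρ, IsChiPlus F x (χ x)) ∧
        ksEntropy ρ f < ((∫ x, χ x ∂ρ : ℝ) : EReal) ∧
        ksEntropy ρ f + ((1 / 40 : ℝ) : EReal) ≤ ((∫ x, χ x ∂ρ : ℝ) : EReal)) ∧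
      ∃ ρ : Measure Torus, IsProbabilityMeasure ρ ∧ MeasurePreserving f ρ ρ ∧
        ksEntropy ρ f + ((1 / 40 : ℝ) : EReal) = ((∫ x, χ x ∂ρ : ℝ) : EReal) := by
  obtain ⟨ρ₀, h₀, h₁⟩ := Pool.Agent.N252.HC.main_eq
  have hd := Pool.Agent.N252.HC.isSmoothDiffeo_ff
  refine ⟨Pool.Agent.N252.HC.ff, Pool.Agent.N252.HC.FF, Pool.Agent.N252.HC.GG,
    ⟨hd.lift, hd.lift_symm, hd.smooth, hd.smooth_symm⟩, Pool.Agent.N252.HC.chi,
    Pool.Agent.N252.HC.measurable_chi, fun ρ hρ hinv => ?_, ρ₀, h₀.prob, h₀.inv, h₁⟩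
  obtain ⟨h1, h2⟩ := Pool.Agent.N252.HC.main_ineq ρ ⟨hρ, hinv⟩
  refine ⟨h1, lt_of_lt_of_le ?_ h2, h2⟩
  have h3 : ksEntropy ρ Pool.Agent.N252.HC.ff ≠ ⊤ := by
    intro h
    rw [h] at h2
    exact absurd h2 (by simp)
  have h4 : ksEntropy ρ Pool.Agent.N252.HC.ff ≠ ⊥ := by
    intro h
    have := ksEntropy_nonneg ρ Pool.Agent.N252.HC.ff
    rw [h] at this
    exact absurd this (by simp)
  lift ksEntropy ρ Pool.Agent.N252.HC.ff to ℝ using ⟨h3, h4⟩ with a
  norm_cast
  linarith

end Pool.Agent.Results.MP_794bd6_an.NoEqualityMeasure
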